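import Pool.Agent.H12.KP.Targets4

/-!
# CONC: from the certificate to the conclusion of (P1) (helper82, board kpi_modules)
-/

set_option autoImplicit false

namespace Pool.Agent.H82.KP

open Pool.Agent.H12.KP Polynomial TensorProduct

universe u v w

section Basic

variable {A : Type u} {D : Type v} [CommRing A] [CommRing D] [Algebra A D] [IsDomain D]
  (𝒟 : ℕ → Submodule A D) [GradedAlgebra 𝒟] (L : Type w) [Field L] [Algebra D L]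
  [IsFractionRing D L]

omit [IsDomain D] in
theorem phi_ne {b : D} (hb : b ≠ 0) : algebraMap D L b ≠ 0 := by
  intro h
  exact hb ((IsFractionRing.injective D L) (by rw [h, map_zero]))

omit [IsDomain D] [IsFractionRing D L] in
theorem one_deg : (1 : D) ∈ 𝒟 0 := SetLike.one_mem_graded 𝒟

/-- The local ring as a subring. -/
def LS (Q : Ideal D) (hQ : Q.IsPrime) : Subring L where
  carrier := Loc 𝒟 L Q
  mul_mem' := by
    rintro z z' ⟨d, a, ha, b, hb, hbQ, hz⟩ ⟨d', a', ha', b', hb', hbQ', hz'⟩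
    refine ⟨d + d', a * a', SetLike.mul_mem_graded ha ha', b * b', SetLike.mul_mem_graded hb hb',
      fun h => ?_, ?_⟩
    · rcases hQ.mem_or_mem h with h | h
      · exact hbQ h
      · exact hbQ' h
    · rw [map_mul, map_mul, ← hz, ← hz']
      ring
  one_mem' := ⟨0, 1, SetLike.one_mem_graded 𝒟, 1, SetLike.one_mem_graded 𝒟,
    fun h => hQ.ne_top ((Ideal.eq_top_iff_one Q).mpr h), by rw [map_one, mul_one]⟩
  add_mem' := by
    rintro z z' ⟨d, a, ha, b, hb, hbQ, hz⟩ ⟨d', a', ha', b', hb', hbQ', hz'⟩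
    refine ⟨d + d', a * b' + a' * b, Submodule.add_mem _ (SetLike.mul_mem_graded ha hb') ?_,
      b * b', SetLike.mul_mem_graded hb hb', fun h => ?_, ?_⟩
    · rw [add_comm d d']
      exact SetLike.mul_mem_graded ha' hb
    · rcases hQ.mem_or_mem h with h | h
      · exact hbQ h
      · exact hbQ' h
    · rw [map_mul, map_add, map_mul, map_mul, ← hz, ← hz']
      ring
  zero_mem' := ⟨0, 0, Submodule.zero_mem _, 1, SetLike.one_mem_graded 𝒟,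
    fun h => hQ.ne_top ((Ideal.eq_top_iff_one Q).mpr h), by rw [map_zero, zero_mul]⟩
  neg_mem' := by
    rintro z ⟨d, a, ha, b, hb, hbQ, hz⟩
    refine ⟨d, -a, Submodule.neg_mem _ ha, b, hb, hbQ, ?_⟩
    rw [map_neg, ← hz]
    ring

/-- The maximal ideal. -/
def Mx (Q : Ideal D) : Set L :=
  {z | ∃ d : ℕ, ∃ a ∈ 𝒟 d, ∃ b ∈ 𝒟 d, a ∈ Q ∧ b ∉ Q ∧ z * algebraMap D L b = algebraMap D L a}

variable {𝒟 L}

omit [IsFractionRing D L] [IsDomain D] in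
theorem Mx_add {Q : Ideal D} (hQ : Q.IsPrime) {z z' : L} (hz : z ∈ Mx 𝒟 L Q)
    (hz' : z' ∈ Mx 𝒟 L Q) : z + z' ∈ Mx 𝒟 L Q := by
  obtain ⟨d, a, ha, b, hb, haQ, hbQ, hz⟩ := hz
  obtain ⟨d', a', ha', b', hb', haQ', hbQ', hz'⟩ := hz'
  refine ⟨d + d', a * b' + a' * b, Submodule.add_mem _ (SetLike.mul_mem_graded ha hb') ?_,
      b * b', SetLike.mul_mem_graded hb hb', ?_, fun h => ?_, ?_⟩
  · rw [add_comm d d']
    exact SetLike.mul_mem_graded ha' hb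
  · exact Ideal.add_mem _ (Ideal.mul_mem_right _ _ haQ) (Ideal.mul_mem_right _ _ haQ')
  · rcases hQ.mem_or_mem h with h | h
    · exact hbQ h
    · exact hbQ' h
  · rw [map_mul, map_add, map_mul, map_mul, ← hz, ← hz']
    ring

omit [IsFractionRing D L] [IsDomain D] in
theorem Mx_mul {Q : Ideal D} (hQ : Q.IsPrime) {z s : L} (hz : z ∈ Mx 𝒟 L Q)
    (hs : s ∈ Loc 𝒟 L Q) : z * s ∈ Mx 𝒟 L Q := by
  obtain ⟨d, a, ha, b, hb, haQ, hbQ, hz⟩ := hz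
  obtain ⟨d', a', ha', b', hb', hbQ', hz'⟩ := hs
  refine ⟨d + d', a * a', SetLike.mul_mem_graded ha ha', b * b', SetLike.mul_mem_graded hb hb',
      Ideal.mul_mem_right _ _ haQ, fun h => ?_, ?_⟩
  · rcases hQ.mem_or_mem h with h | h
    · exact hbQ h
    · exact hbQ' h
  · rw [map_mul, map_mul, ← hz, ← hz']
    ring

omit [IsDomain D] [GradedAlgebra 𝒟] in
/-- `1 + z` is a unit. -/
theorem Mx_unit {Q : Ideal D} {z : L} (hz : z ∈ Mx 𝒟 L Q) :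
    1 + z ≠ 0 ∧ (1 + z)⁻¹ ∈ Loc 𝒟 L Q := by
  obtain ⟨d, a, ha, b, hb, haQ, hbQ, hz⟩ := hz
  have h1 : b + a ∉ Q := fun h => hbQ ((Ideal.add_mem_iff_left Q haQ).mp h)
  have h0 : b + a ≠ 0 := fun h => h1 (by rw [h]; exact Q.zero_mem)
  have hne := phi_ne L h0
  have e : (1 + z) * algebraMap D L b = algebraMap D L (b + a) := by
    rw [map_add, ← hz]
    ring
  have hn : 1 + z ≠ 0 := by
    intro h
    rw [h, zero_mul] at e
    exact hne e.symm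
  refine ⟨hn, d, b, hb, b + a, Submodule.add_mem _ hb ha, h1, ?_⟩
  rw [← e, ← mul_assoc, inv_mul_cancel₀ hn, one_mul]

omit [IsFractionRing D L] [IsDomain D] in
theorem pi_Mx {Q : Ideal D} (hQ : Q.IsPrime) {π : A} (hp : algebraMap A D π ∈ Q) :
    algebraMap D L (algebraMap A D π) ∈ Mx 𝒟 L Q :=
  ⟨0, algebraMap A D π, SetLike.algebraMap_mem_graded 𝒟 π, 1, SetLike.one_mem_graded 𝒟, hp,
    fun h => hQ.ne_top ((Ideal.eq_top_iff_one Q).mpr h), by rw [map_one, mul_one]⟩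

omit [IsDomain D] [GradedAlgebra 𝒟] in
theorem frac_Mx {Q : Ideal D} {d : ℕ} {a b : D} (ha : a ∈ 𝒟 d) (hb : b ∈ 𝒟 d) (haQ : a ∈ Q)
    (hbQ : b ∉ Q) : algebraMap D L a / algebraMap D L b ∈ Mx 𝒟 L Q := by
  have h0 : b ≠ 0 := fun h => hbQ (by rw [h]; exact Q.zero_mem)
  exact ⟨d, a, ha, b, hb, haQ, hbQ, div_mul_cancel₀ _ (phi_ne L h0)⟩

omit [IsDomain D] [GradedAlgebra 𝒟] in
theorem frac_Loc {Q : Ideal D} {d : ℕ} {a b : D} (ha : a ∈ 𝒟 d) (hb : b ∈ 𝒟 d)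
    (hbQ : b ∉ Q) : algebraMap D L a / algebraMap D L b ∈ Loc 𝒟 L Q := by
  have h0 : b ≠ 0 := fun h => hbQ (by rw [h]; exact Q.zero_mem)
  exact ⟨d, a, ha, b, hb, hbQ, div_mul_cancel₀ _ (phi_ne L h0)⟩

omit [IsFractionRing D L] [IsDomain D] in
theorem pow_deg {l : D} {Δ : ℕ} (hl : l ∈ 𝒟 Δ) (k : ℕ) : l ^ k ∈ 𝒟 (k * Δ) := by
  have := SetLike.pow_mem_graded k hl
  rwa [smul_eq_mul] at this

omit [IsFractionRing D L] [IsDomain D] in
theorem chart_Loc {Q : Ideal D} (hQ : Q.IsPrime) {l : D} {Δ : ℕ} (hl : l ∈ 𝒟 Δ) (hlQ : l ∉ Q)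
    {z : L} (hz : z ∈ Chart 𝒟 L l Δ) : z ∈ Loc 𝒟 L Q := by
  obtain ⟨k, a, ha, hz⟩ := hz
  refine ⟨k * Δ, a, ha, l ^ k, pow_deg hl k, fun h => hlQ (hQ.mem_of_pow_mem _ h), ?_⟩
  rw [map_pow, hz]

end Basic

/-- units: `u v = w f`, ... the quotient `η / h` and its inverse. -/
theorem quot_unit {L : Type u} [Field L] (R : Subring L) (z z' η h f f' : L)
    (h0 : 1 + z ≠ 0) (hinv : (1 + z)⁻¹ ∈ R) (h0' : 1 + z' ≠ 0) (hinv' : (1 + z')⁻¹ ∈ R)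
    (hf : f ∈ R) (hf' : f' ∈ R) (e1 : (1 + z) * η = h * f) (e2 : (1 + z') * h = η * f')
    (hη : η ≠ 0) (hh : h ≠ 0) : η / h ∈ R ∧ (η / h)⁻¹ ∈ R := by
  constructor
  · have : η / h = (1 + z)⁻¹ * f := by
      rw [div_eq_iff hh, mul_assoc, mul_comm f h, ← e1, ← mul_assoc, inv_mul_cancel₀ h0, one_mul]
    rw [this]
    exact R.mul_mem hinv hf
  · have : (η / h)⁻¹ = (1 + z')⁻¹ * f' := by
      rw [inv_div, div_eq_iff hη, mul_assoc, mul_comm f' η, ← e2, ← mul_assoc,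
        inv_mul_cancel₀ h0', one_mul]
    rw [this]
    exact R.mul_mem hinv' hf'

theorem pf_CONC : S_CONC.{u} := by
  intro A D _ _ _ _ _ _ _ 𝒟 _ L _ _ _ π hπ hRC n0 q hn0 hq m α β hα hβ hβ0 x hx hmin Δ d0 l0 l1
    hF hl1x hP1 hP2 N hC
  obtain ⟨⟨hxp, hxh, hx1⟩, hxπ, hxmax⟩ := hx
  set φ := algebraMap D L with hφ
  set P : L := φ (algebraMap A D π) with hPdef
  have hφβ : φ β ≠ 0 := phi_ne L hβ0
  have hφ0 : φ l0 ≠ 0 := phi_ne L hF.n0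
  have hφ1 : φ l1 ≠ 0 := phi_ne L hF.n1
  obtain ⟨η0, hη0, f0, hf0, f1, hf1, s0, hs0, s1, hs1, g0, hg0, η1, hη1, i, hi, g1, hg1, d1, hd1,
    s2, hs2, s3, hs3, s4, hs4, s5, hs5, c1, c2, c3, c4, c5, c6⟩ := hC
  set h : L := 1 + P ^ n0 * (φ α / φ β) with hh
  set b : L := φ β ^ Δ / φ l1 ^ m with hb
  have hb0 : b ≠ 0 := div_ne_zero (pow_ne_zero _ hφβ) (pow_ne_zero _ hφ1)
  have hbh : b + P ^ n0 * (φ α * φ β ^ (Δ - 1) / φ l1 ^ m) = b * h := by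
    obtain ⟨δ, hδ⟩ : ∃ δ, Δ = δ + 1 := ⟨Δ - 1, by have := hF.pos; omega⟩
    rw [hh, hb, hδ, Nat.add_sub_cancel, pow_succ]
    field_simp
  rw [hbh] at c2 c3
  -- the unit `h` at a point where `β` does not vanish
  have hunit : ∀ Q : Ideal D, Q.IsPrime → algebraMap A D π ∈ Q → β ∉ Q →
      h ≠ 0 ∧ h ∈ Loc 𝒟 L Q ∧ h⁻¹ ∈ Loc 𝒟 L Q := by
    intro Q hQ hQπ hQβ
    obtain ⟨n', hn'⟩ : ∃ n', n0 = n' + 1 := ⟨n0 - 1, by omega⟩
    have hfr : φ α / φ β ∈ LS 𝒟 L Q hQ := frac_Loc hα hβ hQβ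
    have hPL : P ∈ LS 𝒟 L Q hQ := by
      refine ⟨0, algebraMap A D π, SetLike.algebraMap_mem_graded 𝒟 π, 1,
        SetLike.one_mem_graded 𝒟, fun h => hQ.ne_top ((Ideal.eq_top_iff_one Q).mpr h), ?_⟩
      rw [map_one, mul_one]
    have hz : P * (P ^ n' * (φ α / φ β)) ∈ Mx 𝒟 L Q :=
      Mx_mul hQ (pi_Mx hQ hQπ) ((LS 𝒟 L Q hQ).mul_mem ((LS 𝒟 L Q hQ).pow_mem hPL n') hfr)
    have he : h = 1 + P * (P ^ n' * (φ α / φ β)) := by
      rw [hh, hn', pow_succ]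
      ring
    have hu := Mx_unit hz
    rw [← he] at hu
    refine ⟨hu.1, ?_, hu.2⟩
    have h5 : h ∈ LS 𝒟 L Q hQ :=
      (LS 𝒟 L Q hQ).add_mem (LS 𝒟 L Q hQ).one_mem ((LS 𝒟 L Q hQ).mul_mem
        ((LS 𝒟 L Q hQ).pow_mem hPL n0) hfr)
    exact h5
  -- h ≠ 0
  have hh0 : h ≠ 0 := by
    have := hxp
    obtain ⟨y, hy, hyx⟩ := Ideal.exists_minimalPrimes_le
      (show Ideal.span {algebraMap A D π} ≤ x from
        (Ideal.span_singleton_le_iff_mem x).mpr hxπ)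
    have hyp : y.IsPrime := hy.1.1
    have hyπ : algebraMap A D π ∈ y := hy.1.2 (Ideal.mem_span_singleton_self _)
    have hcore : (y.homogeneousCore 𝒟).toIdeal = y := by
      refine le_antisymm (Ideal.toIdeal_homogeneousCore_le 𝒟 y) ?_
      refine hy.2 ⟨hyp.homogeneousCore, ?_⟩ (Ideal.toIdeal_homogeneousCore_le 𝒟 y)
      refine (Ideal.span_singleton_le_iff_mem _).mpr ?_
      exact Ideal.mem_homogeneousCore_of_homogeneous_of_mem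
        ⟨0, SetLike.algebraMap_mem_graded 𝒟 π⟩ hyπ
    have hyh : y.IsHomogeneous 𝒟 := (Ideal.IsHomogeneous.iff_eq 𝒟 y).mpr hcore
    have hyR : Rel 𝒟 y := ⟨hyp, hyh, fun hc => hx1 (hc.trans hyx)⟩
    exact (hunit y hyp hyπ (hmin y hy hyR)).1
  -- units at a point over `π` where `l1` does not vanish
  have hloc : ∀ (Q : Ideal D) (hQ : Q.IsPrime), algebraMap A D π ∈ Q → l1 ∉ Q → η0 ≠ 0 ∧
      η0 / (b * h) ∈ Loc 𝒟 L Q ∧ (η0 / (b * h))⁻¹ ∈ Loc 𝒟 L Q := by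
    intro Q hQ hQπ hQl
    have u0 := Mx_unit (Mx_mul hQ (pi_Mx (𝒟 := 𝒟) (L := L) hQ hQπ) (chart_Loc hQ hF.m1 hQl hs0))
    have u1 := Mx_unit (Mx_mul hQ (pi_Mx (𝒟 := 𝒟) (L := L) hQ hQπ) (chart_Loc hQ hF.m1 hQl hs1))
    have hη : η0 ≠ 0 := by
      intro h0
      rw [h0, zero_mul] at c3
      rcases mul_eq_zero.mp c3 with h | h
      · exact u1.1 h
      · exact (mul_ne_zero hb0 hh0) h
    have := quot_unit (LS 𝒟 L Q hQ) _ _ η0 (b * h) f0 f1 u0.1 u0.2 u1.1 u1.2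
      (chart_Loc hQ hF.m1 hQl hf0) (chart_Loc hQ hF.m1 hQl hf1) c2 c3 hη (mul_ne_zero hb0 hh0)
    exact ⟨hη, this.1, this.2⟩
  obtain ⟨hη0', hv1, hv2⟩ := hloc x hxp hxπ hl1x
  have hbot : (⊥ : Ideal D).IsPrime := Ideal.isPrime_bot
  have hb_inv : b⁻¹ ∈ LS 𝒟 L ⊥ hbot := by
    have e : b⁻¹ = φ (l1 ^ m) / φ (β ^ Δ) := by
      rw [hb, inv_div, map_pow, map_pow]
    rw [e]
    refine frac_Loc (d := m * Δ) (pow_deg hF.m1 m) ?_ ?_
    · rw [mul_comm]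
      exact pow_deg hβ Δ
    · rw [Ideal.mem_bot]
      exact pow_ne_zero _ hβ0
  have hl1b : l1 ∉ (⊥ : Ideal D) := by rw [Ideal.mem_bot]; exact hF.n1
  have hl0b : l0 ∉ (⊥ : Ideal D) := by rw [Ideal.mem_bot]; exact hF.n0
  have hη0b : η0 ∈ LS 𝒟 L ⊥ hbot := chart_Loc hbot hF.m1 hl1b hη0
  refine ⟨η0 / b, ?_, div_ne_zero hη0' hb0, ?_, ?_⟩
  · have h1 : η0 / b ∈ LS 𝒟 L ⊥ hbot := by
      rw [div_eq_mul_inv]
      exact (LS 𝒟 L ⊥ hbot).mul_mem hη0b hb_inv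
    exact h1
  · refine ⟨1, (LS 𝒟 L ⊥ hbot).one_mem, one_ne_zero, η0 / (b * h), hv1,
      div_ne_zero hη0' (mul_ne_zero hb0 hh0), hv2, ?_⟩
    rw [one_pow, mul_one]
    field_simp
  · intro x' hx' hne
    have hx'2 := hx'
    obtain ⟨⟨hp', hh', hx1'⟩, hπ', hmax'⟩ := hx'
    by_cases hl : l1 ∈ x'
    · -- chart `l0`
      have hl0 : l0 ∉ x' := fun hc => hP2 x' ⟨hp', hh', hx1'⟩ hπ' hc hl
      have hTinv : (φ l0 / φ l1)⁻¹ ∈ Mx 𝒟 L x' := by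
        rw [inv_div]
        exact frac_Mx hF.m1 hF.m0 hl hl0
      have mz : ∀ s s' : L, s ∈ Chart 𝒟 L l0 Δ → s' ∈ Chart 𝒟 L l0 Δ →
          P * s + (φ l0 / φ l1)⁻¹ * s' ∈ Mx 𝒟 L x' := by
        intro s s' hs hs'
        exact Mx_add hp' (Mx_mul hp' (pi_Mx hp' hπ') (chart_Loc hp' hF.m0 hl0 hs))
          (Mx_mul hp' hTinv (chart_Loc hp' hF.m0 hl0 hs'))
      have u2 := Mx_unit (mz s2 s3 hs2 hs3)
      have u4 := Mx_unit (mz s4 s5 hs4 hs5)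
      have hT0 : φ l0 / φ l1 ≠ 0 := div_ne_zero hφ0 hφ1
      have hη1' : η1 ≠ 0 := by
        intro h0
        rw [h0, mul_zero] at c1
        exact hη0' c1
      set b1 : L := φ β ^ Δ / φ l0 ^ m with hb1
      have hb10 : b1 ≠ 0 := div_ne_zero (pow_ne_zero _ hφβ) (pow_ne_zero _ hφ0)
      have c5' : (1 + (P * s2 + (φ l0 / φ l1)⁻¹ * s3)) * (b1 * i ^ q) = η1 * g1 := by
        rw [← c5]; ring
      have c6' : (1 + (P * s4 + (φ l0 / φ l1)⁻¹ * s5)) * η1 = b1 * i ^ q * d1 := by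
        rw [← c6]; ring
      have hi0 : i ≠ 0 := by
        intro h0
        rw [h0, zero_pow (by omega), mul_zero, zero_mul] at c6'
        rcases mul_eq_zero.mp c6' with h | h
        · exact u4.1 h
        · exact hη1' h
      have hbi : b1 * i ^ q ≠ 0 := mul_ne_zero hb10 (pow_ne_zero _ hi0)
      have hq2 := quot_unit (LS 𝒟 L x' hp') _ _ η1 (b1 * i ^ q) d1 g1 u4.1 u4.2 u2.1 u2.2
        (chart_Loc hp' hF.m0 hl0 hd1) (chart_Loc hp' hF.m0 hl0 hg1) c6' c5' hη1' hbi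
      refine ⟨(φ l0 / φ l1) ^ N * i, ?_, mul_ne_zero (pow_ne_zero _ hT0) hi0,
        η1 / (b1 * i ^ q), hq2.1, div_ne_zero hη1' hbi, hq2.2, ?_⟩
      · have hT : φ l0 / φ l1 ∈ LS 𝒟 L ⊥ hbot := frac_Loc hF.m0 hF.m1 hl1b
        have hib : i ∈ LS 𝒟 L ⊥ hbot := chart_Loc hbot hF.m0 hl0b hi
        have h1 : (φ l0 / φ l1) ^ N * i ∈ LS 𝒟 L ⊥ hbot :=
          (LS 𝒟 L ⊥ hbot).mul_mem ((LS 𝒟 L ⊥ hbot).pow_mem hT N) hib
        exact h1
      · have hbT : b = (φ l0 / φ l1) ^ m * b1 := by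
          rw [hb, hb1, div_pow]
          field_simp
        rw [c1, hbT, pow_add, pow_mul, mul_pow]
        have hTm : (φ l0 / φ l1) ^ m ≠ 0 := pow_ne_zero _ hT0
        have hiq : i ^ q ≠ 0 := pow_ne_zero _ hi0
        field_simp
    · -- chart `l1`
      have hβ' : β ∉ x' := fun hc => hl (hP1 x' hx'2 hc hne)
      obtain ⟨-, w1, w2⟩ := hloc x' hp' hπ' hl
      obtain ⟨-, k1, k2⟩ := hunit x' hp' hπ' hβ'
      refine ⟨1, (LS 𝒟 L ⊥ hbot).one_mem, one_ne_zero, η0 / b, ?_, div_ne_zero hη0' hb0, ?_, ?_⟩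
      · have e : η0 / b = η0 / (b * h) * h := by field_simp
        have h1 : η0 / b ∈ LS 𝒟 L x' hp' := by
          rw [e]
          exact (LS 𝒟 L x' hp').mul_mem w1 k1
        exact h1
      · have e : (η0 / b)⁻¹ = (η0 / (b * h))⁻¹ * h⁻¹ := by field_simp
        have h1 : (η0 / b)⁻¹ ∈ LS 𝒟 L x' hp' := by
          rw [e]
          exact (LS 𝒟 L x' hp').mul_mem w2 k2
        exact h1
      · rw [one_pow, one_mul]

end Pool.Agent.H82.KP
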